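import Pool.Agent.Q17.DM.Stm
import Pool.Agent.Q17.WR.Fin
import Pool.Agent.Q261.OS.DPR

/-!
# Project DM of helper17, job DMR (Dade's alternating sums for `LX B`), by helper275

(the invariance under conjugation follows `Pool.Agent.Q261.OS.DPR`)
-/

set_option autoImplicit false

open scoped BigOperators Classical
open Pool.Agent.H254R3.IN hiding NN
open Pool.Agent.Y63.KR Pool.Agent.Q17.WR Pool.Agent.Q17.DC Pool.Agent.Q17.AM Pool.Agent.Q17.OS
open Pool.Agent.Q17.DM Pool.Agent.Y62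

noncomputable section

namespace Pool.Agent.Q275.DM

variable {Γ : Type} [Group Γ]

/-- transport of a counted character -/
lemma cd_of {p : ℕ} {O : ValuationSubring ℂ} {B : Set (Γ → ℂ)} {X : Set Γ}
    {d : ℕ} {H H' : Subgroup Γ} (c : H' ≃* H) {g : Γ}
    (hc : ∀ x, ((c x : H) : Γ) = g⁻¹ * x * g)
    (hc' : ∀ x, ((c.symm x : H') : Γ) = g * x * g⁻¹) {ψ : H → ℂ}
    (h : Cd p O B X d H ψ) : Cd p O B X d H' (fun x => ψ (c x)) := by
  refine ⟨irr_comp h.irr c, ?_, ?_⟩
  · intro χ hχ x hx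
    have h1 := h.ind χ hχ x hx
    have h2 : ∑ᶠ y : {y : H' // IsConj x (y : Γ)}, ψ (c y) / ψ (c 1) =
        ∑ᶠ y : {y : H // IsConj x (y : Γ)}, ψ y / ψ 1 := by
      refine finsum_eq_of_bijective
        (fun y : {y : H' // IsConj x (y : Γ)} =>
          (⟨c y.1, by
            rw [hc]
            refine y.2.trans ?_
            rw [isConj_iff]
            refine ⟨g⁻¹, ?_⟩
            group⟩ : {y : H // IsConj x (y : Γ)})) ⟨?_, ?_⟩ ?_
      · intro y y' hyy
        exact Subtype.ext (c.injective (congrArg Subtype.val hyy))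
      · rintro ⟨y, hy⟩
        refine ⟨⟨c.symm y, ?_⟩, ?_⟩
        · rw [hc']
          refine hy.trans ?_
          rw [isConj_iff]
          exact ⟨g, rfl⟩
        · apply Subtype.ext
          exact c.apply_symm_apply y
      · intro y
        change ψ (c y.1) / ψ (c 1) = ψ (c y.1) / ψ 1
        rw [map_one]
    rw [← h2] at h1
    exact h1
  · obtain ⟨n, hn, hT⟩ := h.defect
    refine ⟨n, ?_, ?_⟩
    · rw [map_one]
      exact hn
    · rw [Nat.card_congr c.toEquiv]
      exact hT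

/-- the number of the counted characters and conjugation -/
lemma cd_conj {p : ℕ} {O : ValuationSubring ℂ} {B : Set (Γ → ℂ)} {X : Set Γ}
    {d : ℕ} {H H' : Subgroup Γ} {g : Γ}
    (hH : ∀ e, e ∈ H' ↔ g⁻¹ * e * g ∈ H) :
    cd p O B X d H' = cd p O B X d H := by
  have hm : ∀ x : Γ, x ∈ H' → g⁻¹ * x * g ∈ H := fun x hx => (hH x).mp hx
  have hm' : ∀ x : Γ, x ∈ H → g * x * g⁻¹ ∈ H' := fun x hx =>
    (hH _).mpr (by
      have e : g⁻¹ * (g * x * g⁻¹) * g = x := by group
      rw [e]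
      exact hx)
  let c : H' ≃* H :=
    { toFun := fun x => ⟨g⁻¹ * x * g, hm _ x.2⟩
      invFun := fun x => ⟨g * x * g⁻¹, hm' _ x.2⟩
      left_inv := fun x => Subtype.ext (by
        change g * (g⁻¹ * (x : Γ) * g) * g⁻¹ = x
        group)
      right_inv := fun x => Subtype.ext (by
        change g⁻¹ * (g * (x : Γ) * g⁻¹) * g = x
        group)
      map_mul' := fun x y => Subtype.ext (by
        change g⁻¹ * ((x : Γ) * y) * g = g⁻¹ * x * g * (g⁻¹ * y * g)
        group) }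
  have hc : ∀ x, ((c x : H) : Γ) = g⁻¹ * x * g := fun x => rfl
  have hc' : ∀ x, ((c.symm x : H') : Γ) = g * x * g⁻¹ := fun x => rfl
  unfold cd
  refine Nat.card_congr (Equiv.symm ?_)
  exact
    { toFun := fun ψ => ⟨fun x => ψ.1 (c x), cd_of c hc hc' ψ.2⟩
      invFun := fun ψ => ⟨fun x => ψ.1 (c.symm x), cd_of c.symm (g := g⁻¹)
        (fun x => by rw [hc', inv_inv]) (fun x => by
          change ((c x : H) : Γ) = _
          rw [hc, inv_inv]) ψ.2⟩
      left_inv := fun ψ => Subtype.ext (funext fun x => by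
        change ψ.1 (c (c.symm x)) = ψ.1 x
        rw [c.apply_symm_apply])
      right_inv := fun ψ => Subtype.ext (funext fun x => by
        change ψ.1 (c.symm (c x)) = ψ.1 x
        rw [c.symm_apply_apply]) }

/-- the defects are bounded -/
lemma cd_zero [Finite Γ] {p : ℕ} {O : ValuationSubring ℂ} {B : Set (Γ → ℂ)} {X : Set Γ}
    {d : ℕ} {H : Subgroup Γ} (hd : (Nat.card Γ).factorization p < d) : cd p O B X d H = 0 := by
  unfold cd
  rw [Nat.card_eq_zero]
  left
  refine ⟨fun ψ => ?_⟩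
  obtain ⟨n, -, hT⟩ := ψ.2.defect
  have h1 : (Nat.card H).factorization p ≤ (Nat.card Γ).factorization p :=
    (Nat.factorization_le_iff_dvd (Nat.card_pos (α := H)).ne' (Nat.card_pos (α := Γ)).ne').2
      (Subgroup.card_subgroup_dvd_card H) p
  omega

/-- the coefficients of `pol` -/
lemma coeff_pol [Finite Γ] {p : ℕ} {O : ValuationSubring ℂ} {B : Set (Γ → ℂ)} {X : Set Γ}
    {d : ℕ} {H : Subgroup Γ} :
    (pol p O B X H).coeff d = (Nat.card H : ℤ) * (cd p O B X d H : ℤ) := by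
  unfold pol
  rw [Polynomial.coeff_smul, Polynomial.finsetSum_coeff, nsmul_eq_mul]
  congr 1
  by_cases hd : d ∈ Finset.range ((Nat.card Γ).factorization p + 1)
  · rw [Finset.sum_eq_single_of_mem d hd, Polynomial.coeff_monomial, if_pos rfl]
    intro b _ hb
    rw [Polynomial.coeff_monomial, if_neg hb]
  · have h1 : (Nat.card Γ).factorization p < d := by
      rw [Finset.mem_range] at hd
      omega
    rw [cd_zero h1]
    refine Finset.sum_eq_zero fun b hb => ?_
    rw [Polynomial.coeff_monomial, if_neg]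
    rintro rfl
    exact hd hb

/-- the coefficients of `CS` -/
lemma coeff_CS [Finite Γ] (hALX : S_ALX) (p : ℕ) [Fact p.Prime] (O : ValuationSubring ℂ)
    (B : Set (Γ → ℂ)) (d : ℕ) :
    (CS p ⊤ ⊥ (pol p O B Set.univ)).coeff d = (Nat.card Γ : ℤ) * DO p O B d := by
  unfold DO
  have h0 := hALX p Γ ⊤ ⊥ (fun σ => (cd p O B Set.univ d (chainStabilizer σ) : ℤ))
    fun σ _ g _ => by
      rw [cd_conj (Q261.OS.stab_conj σ g)]
  rw [Nat.card_congr (Subgroup.topEquiv (G := Γ)).toEquiv] at h0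
  rw [h0]
  unfold CS
  have h1 := AddMonoidHom.map_finsum (Polynomial.lcoeff ℤ d).toAddMonoidHom
    (f := fun σ : {σ : Set (Subgroup Γ) // Ch p ⊤ ⊥ σ} =>
      (-1 : Polynomial ℤ) ^ σ.1.ncard * pol p O B Set.univ (chainStabilizer σ.1))
    (Set.toFinite _)
  refine h1.trans (finsum_congr fun σ => ?_)
  change ((-1 : Polynomial ℤ) ^ σ.1.ncard * pol p O B Set.univ (chainStabilizer σ.1)).coeff d = _
  have h2 : (pol p O B Set.univ (chainStabilizer σ.1)).coeff d =
      (Nat.card (Ns ⊤ σ.1) : ℤ) * (cd p O B Set.univ d (chainStabilizer σ.1) : ℤ) := by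
    rw [coeff_pol]
    unfold Ns
    rw [top_inf_eq]
  rcases Nat.even_or_odd σ.1.ncard with h | h
  · rw [h.neg_one_pow, h.neg_one_pow, one_mul, one_mul, h2]
  · rw [h.neg_one_pow, h.neg_one_pow, neg_one_mul, neg_one_mul, Polynomial.coeff_neg, h2]

/-- the sums vanish for large defects -/
lemma DO_zero [Finite Γ] {p : ℕ} {O : ValuationSubring ℂ} {B : Set (Γ → ℂ)}
    {d : ℕ} (hd : (Nat.card Γ).factorization p < d) : DO p O B d = 0 := by
  unfold DO altX
  refine finsum_eq_zero_of_forall_eq_zero fun c => ?_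
  change _ * ((cd p O B Set.univ d (chainStabilizer _) : ℕ) : ℤ) = 0
  rw [cd_zero hd, Nat.cast_zero, mul_zero]

/-- the polynomial of the sums -/
def PD (p : ℕ) (O : ValuationSubring ℂ) (B : Set (Γ → ℂ)) : Polynomial ℤ :=
  ∑ d ∈ Finset.range ((Nat.card Γ).factorization p + 1), Polynomial.monomial d (DO p O B d)

lemma coeff_PD [Finite Γ] (p : ℕ) (O : ValuationSubring ℂ) (B : Set (Γ → ℂ)) (d : ℕ) :
    (PD p O B).coeff d = DO p O B d := by
  unfold PD
  rw [Polynomial.finsetSum_coeff]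
  by_cases hd : d ∈ Finset.range ((Nat.card Γ).factorization p + 1)
  · rw [Finset.sum_eq_single_of_mem d hd, Polynomial.coeff_monomial, if_pos rfl]
    intro b _ hb
    rw [Polynomial.coeff_monomial, if_neg hb]
  · have h1 : (Nat.card Γ).factorization p < d := by
      rw [Finset.mem_range] at hd
      omega
    rw [DO_zero h1]
    refine Finset.sum_eq_zero fun b hb => ?_
    rw [Polynomial.coeff_monomial, if_neg]
    rintro rfl
    exact hd hb

lemma CS_eq [Finite Γ] (hALX : S_ALX) (p : ℕ) [Fact p.Prime] (O : ValuationSubring ℂ)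
    (B : Set (Γ → ℂ)) :
    CS p ⊤ ⊥ (pol p O B Set.univ) = Polynomial.C (Nat.card Γ : ℤ) * PD p O B := by
  ext d
  rw [coeff_CS hALX, Polynomial.coeff_C_mul, coeff_PD]

/-- `CS` and additive maps -/
lemma CS_exp {p r : ℕ} [Finite Γ] (N : ℕ) (F : Subgroup Γ → Polynomial ℤ) :
    CS p ⊤ ⊥ (fun L => N • Polynomial.expand ℤ r (F L)) =
      N • Polynomial.expand ℤ r (CS p ⊤ ⊥ F) := by
  unfold CS
  have h1 := AddMonoidHom.map_finsum ((nsmulAddMonoidHom N).comp
      (Polynomial.expand ℤ r).toRingHom.toAddMonoidHom)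
    (f := fun σ : {σ : Set (Subgroup Γ) // Ch p ⊤ ⊥ σ} =>
      (-1 : Polynomial ℤ) ^ σ.1.ncard * F (chainStabilizer σ.1))
    (Set.toFinite _)
  refine Eq.trans (finsum_congr fun σ => ?_) h1.symm
  change (-1 : Polynomial ℤ) ^ σ.1.ncard * N • Polynomial.expand ℤ r (F (chainStabilizer σ.1)) =
    N • Polynomial.expand ℤ r ((-1 : Polynomial ℤ) ^ σ.1.ncard * F (chainStabilizer σ.1))
  rw [map_mul, map_pow, map_neg, map_one, mul_smul_comm]

/-- the order of the wreath product -/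
lemma card_Wc (G : Type) [Group G] [Finite G] (r : ℕ) [Fact r.Prime] :
    Nat.card (Wc G r) = Nat.card G ^ r * r := by
  have h1 : Nat.card (Cy r) = r := by
    rw [Nat.card_congr (Multiplicative.toAdd : Cy r ≃ ZMod r), Nat.card_zmod]
  have h2 : Nat.card (Wc G r) = Nat.card ((Cy r → G) × Cy r) :=
    Nat.card_congr SemidirectProduct.equivProd
  rw [h2, Nat.card_prod, Nat.card_fun, h1]

/-- **DMR** -/
theorem t_DMR : S_ALX → S_ASM → S_CDM → S_CDN → S_CDC → S_DMR := by
  intro hALX hASM hCDM hCDN hCDC p r hp hr hne G _ _ O hO B hB hP j hj hd1 hd2 d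
  have h1 : CS p ⊤ ⊥ (pol p O (LX (r := r) B) {x | x.right = 1}) =
      CS p ⊤ ⊥ (pol p O (LX (r := r) B) Set.univ) := by
    unfold CS
    exact finsum_congr fun σ => by rw [hCDC p r hne G O hO B hB hP σ.1 σ.2]
  have h2 := hASM p r hne G (pol p O (LX (r := r) B) {x | x.right = 1}) (pol p O B Set.univ)
    (fun L => (r ^ 2 - 1) • Polynomial.expand ℤ r (pol p O B Set.univ L))
    (fun H => hCDM p r hne G O hO B hB hP H) (fun L m => hCDN p r hne G O hO B hB hP L m)
  rw [h1, CS_exp, CS_eq hALX, CS_eq hALX, card_Wc] at h2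
  have hcG : (Nat.card G : ℤ) ≠ 0 := by
    have := (Nat.card_pos (α := G)).ne'
    exact_mod_cast this
  have hr0 : 0 < r := hr.out.pos
  have h3 := congrArg (fun P : Polynomial ℤ => P.coeff (r * d)) h2
  change (_ : Polynomial ℤ).coeff (r * d) = (_ : Polynomial ℤ).coeff (r * d) at h3
  rw [Polynomial.coeff_C_mul, coeff_PD, Polynomial.coeff_add, mul_pow, ← Polynomial.C_pow,
    Polynomial.coeff_C_mul, Polynomial.coeff_smul, Polynomial.coeff_smul, map_mul,
    Polynomial.expand_C, Polynomial.coeff_C_mul, mul_comm r d,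
    Polynomial.coeff_expand_mul hr0, coeff_PD] at h3
  have h4 : (r : ℤ) * DO p O (LX (r := r) B) (d * r) =
      ((PD p O B) ^ r).coeff (d * r) + ((r ^ 2 - 1 : ℕ) : ℤ) * DO p O B d := by
    have h5 : (Nat.card G : ℤ) ^ r ≠ 0 := pow_ne_zero _ hcG
    refine mul_left_cancel₀ h5 ?_
    have h6 : (Nat.card G : ℤ) ^ r = (Nat.card G : ℤ) ^ (r - 1) * (Nat.card G : ℤ) := by
      rw [← pow_succ]
      congr 1
      omega
    rw [nsmul_eq_mul, nsmul_eq_mul] at h3
    push_cast at h3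
    rw [mul_add, ← mul_assoc, h3]
    congr 1
    rw [h6]
    ring
  have h5 : Polynomial.C ((r : ℤ) ^ j) ∣ PD p O B := by
    rw [Polynomial.C_dvd_iff_dvd_coeff]
    intro i
    rw [coeff_PD]
    exact hd1 i
  have h6 : (r : ℤ) ^ (j + 1) ∣ ((PD p O B) ^ r).coeff (d * r) := by
    have h7 : Polynomial.C (((r : ℤ) ^ j) ^ r) ∣ (PD p O B) ^ r := by
      rw [Polynomial.C_pow]
      exact pow_dvd_pow_of_dvd h5 r
    rw [Polynomial.C_dvd_iff_dvd_coeff] at h7
    refine dvd_trans ?_ (h7 (d * r))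
    rw [← pow_mul]
    refine pow_dvd_pow _ ?_
    have h8 : 2 ≤ r := hr.out.two_le
    nlinarith
  have h7 : (r : ℤ) ^ (j + 1) ∣ (r : ℤ) * DO p O (LX (r := r) B) (d * r) := by
    rw [pow_succ, mul_comm ((r : ℤ) ^ j)]
    exact mul_dvd_mul_left _ (hd2 _)
  have h8 : (r : ℤ) ^ (j + 1) ∣ ((r ^ 2 - 1 : ℕ) : ℤ) * DO p O B d := by
    rw [h4] at h7
    exact (dvd_add_right h6).mp h7
  have h9 : Nat.Coprime (r ^ (j + 1)) (r ^ 2 - 1) := by
    refine Nat.Coprime.pow_left _ ?_
    rw [Nat.Prime.coprime_iff_not_dvd hr.out]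
    intro hdv
    have h10 : r ∣ r ^ 2 := dvd_pow_self r two_ne_zero
    have h11 : 1 ≤ r ^ 2 := Nat.one_le_pow _ _ hr0
    have h12 : r ∣ 1 := by
      have := (Nat.dvd_sub_iff_right h11 h10).mp hdv
      exact this
    exact hr.out.one_lt.ne' (Nat.dvd_one.mp h12)
  have h10 : IsCoprime ((r : ℤ) ^ (j + 1)) (((r ^ 2 - 1 : ℕ) : ℤ)) := by
    have := Nat.isCoprime_iff_coprime.mpr h9
    push_cast at this ⊢
    exact this
  exact h10.dvd_of_dvd_mul_left h8

end Pool.Agent.Q275.DM
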